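import Pool.Agent.H332.HT.Defs

/-! # HT-ULEM: the bottom face is lit by a pair of directions -/

set_option autoImplicit false

namespace Pool.Agent.H94.HT

open Pool.Agent.H332.HT

theorem above {K : Set V3} (hK : HB K) (hf : S_fib) {p : V2} (hp : p ∈ IP K) :
    ∃ z : ℝ, -1 < z ∧ ((p, z) : V3) ∈ interior K := by
  obtain ⟨z, hz⟩ := (hf K hK).1 p hp
  refine ⟨z, ?_, hz⟩
  by_contra hcon
  push Not at hcon
  have hc : Continuous fun t : ℝ => ((p, z - t) : V3) := by fun_prop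
  have ho : IsOpen ((fun t : ℝ => ((p, z - t) : V3)) ⁻¹' interior K) :=
    isOpen_interior.preimage hc
  have h0 : (0 : ℝ) ∈ (fun t : ℝ => ((p, z - t) : V3)) ⁻¹' interior K := by
    show ((p, z - 0) : V3) ∈ interior K
    rw [sub_zero]
    exact hz
  obtain ⟨ε, hε, hb⟩ := Metric.isOpen_iff.1 ho 0 h0
  have h1 : (ε / 2 : ℝ) ∈ Metric.ball (0 : ℝ) ε := by
    rw [Metric.mem_ball, Real.dist_eq, sub_zero, abs_of_pos (by linarith)]
    linarith
  have h2 : ((p, z - ε / 2) : V3) ∈ K := interior_subset (hb h1)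
  have h3 := hK.ht _ _ h2
  have h4 := (abs_le.1 h3).1
  linarith

/-- a step into the interior of the shadow along the bottom face -/
theorem claim1 {K : Set V3} (hK : HB K) (hf : S_fib) {p q v : V2} {t : ℝ} (ht : 0 < t)
    (hq : q ∈ IP K) (hqK : ((q, -1) : V3) ∈ K) (h : p + t • v = q) :
    ((v, 0) : V3) ∈ T K (p, -1) ∧ ∃ k : ℝ, 0 < k ∧ ((v, k) : V3) ∈ C K (p, -1) := by
  obtain ⟨z, hz, hzK⟩ := above hK hf hq
  constructor
  · refine ⟨t, ht, ?_⟩
    have e : ((p, -1) : V3) + t • ((v, 0) : V3) = (q, -1) := by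
      rw [← h]
      simp
    rw [e]
    exact hqK
  · refine ⟨(z + 1) / t, div_pos (by linarith) ht, t, ht, ?_⟩
    have e : ((p, -1) : V3) + t • ((v, (z + 1) / t) : V3) = (q, z) := by
      rw [← h]
      have : t * ((z + 1) / t) = z + 1 := mul_div_cancel₀ _ ht.ne'
      simp [this]
    rw [e]
    exact hzK

/-- convexity of the bottom face and of the top face -/
theorem seg {K : Set V3} (hK : HB K) {a : V2} {z : ℝ} (ha : ((a, z) : V3) ∈ K) {s : ℝ}
    (hs : |s| ≤ 1) : ((s • a, z) : V3) ∈ K := by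
  have h1 := hK.symm a z ha
  obtain ⟨h2, h3⟩ := abs_le.1 hs
  have h4 := hK.cvx ha h1 (a := (1 + s) / 2) (b := (1 - s) / 2) (by linarith) (by linarith) (by ring)
  have e : ((1 + s) / 2) • ((a, z) : V3) + ((1 - s) / 2) • ((-a, z) : V3) = (s • a, z) := by
    ext
    · simp; ring
    · simp; ring
    · simp; ring
  rw [e] at h4
  exact h4

/-- multiples of points of the shadow -/
theorem sIP {K : Set V3} (hK : HB K) (hP : S_P) {a : V2} (ha : a ∈ P K) {s : ℝ} (hs : |s| < 1) :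
    s • a ∈ IP K := by
  obtain ⟨-, -, hneg, h0, -, -, hl⟩ := hP K hK
  rcases le_or_gt 0 s with h | h
  · rw [abs_of_nonneg h] at hs
    have := hl 0 h0 a ha (1 - s) (by linarith) (by linarith)
    rw [smul_zero, zero_add, sub_sub_cancel] at this
    exact this
  · rw [abs_of_neg h] at hs
    have := hl 0 h0 (-a) (hneg a ha) (1 + s) (by linarith) (by linarith)
    have e : (1 + s) • (0 : V2) + (1 - (1 + s)) • (-a) = s • a := by
      rw [smul_zero, zero_add, smul_neg, ← neg_smul]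
      congr 1
      ring
    rw [e] at this
    exact this

theorem caseA {K : Set V3} (hK : HB K) (hP : S_P) (hik : S_IntK) {x : V2} (hx : Full K x)
    (hxI : x ∉ IP K) (hline : ∀ y : V2, ((y, -1) : V3) ∈ K → det x y = 0) :
    ∀ p : V2, ((p, -1) : V3) ∈ K →
      ((x, 1) : V3) ∈ C K (p, -1) ∨ ((-x, 1) : V3) ∈ C K (p, -1) := by
  intro p hp
  have hx0 : x ≠ 0 := by
    rintro rfl
    exact hxI (hP K hK).2.2.2.1
  have hxP : x ∈ P K := ⟨_, hx.1, rfl⟩
  obtain ⟨s, hs⟩ : ∃ s : ℝ, p = s • x := by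
    have hd := hline p hp
    unfold det at hd
    by_cases h1 : x.1 = 0
    · have h2 : x.2 ≠ 0 := by
        intro h2
        exact hx0 (Prod.ext h1 h2)
      refine ⟨p.2 / x.2, ?_⟩
      rw [h1] at hd
      have h3 : p.1 = 0 := by
        have : x.2 * p.1 = 0 := by linarith
        exact (mul_eq_zero.1 this).resolve_left h2
      ext
      · simp [h1, h3]
      · simp [h2]
    · refine ⟨p.1 / x.1, ?_⟩
      ext
      · simp [h1]
      · simp
        field_simp
        linarith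
  have hs1 : |s| ≤ 1 := by
    by_contra hcon
    push Not at hcon
    apply hxI
    have hs0 : s ≠ 0 := by
      rintro rfl
      simp at hcon
      linarith
    have h1 := sIP hK hP (a := p) ⟨_, hp, rfl⟩ (s := s⁻¹) (by
      rw [abs_inv]
      exact inv_lt_one_of_one_lt₀ hcon)
    rw [hs, smul_smul, inv_mul_cancel₀ hs0, one_smul] at h1
    exact h1
  obtain ⟨h2, h3⟩ := abs_le.1 hs1
  have key : ∀ r : ℝ, |r| < 1 → ((r • x, -(1 / 2)) : V3) ∈ interior K := by
    intro r hr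
    exact hik K hK (r • x) (-1) (-(1 / 2)) 1 (sIP hK hP hxP hr) (seg hK hx.2 hr.le)
      (seg hK hx.1 hr.le) (by norm_num) (by norm_num)
  rcases le_total s 0 with h | h
  · left
    refine ⟨1 / 2, by norm_num, ?_⟩
    have e : ((p, -1) : V3) + (1 / 2 : ℝ) • ((x, 1) : V3) = ((s + 1 / 2) • x, -(1 / 2)) := by
      rw [hs]
      ext
      · simp; ring
      · simp; ring
      · simp; norm_num
    rw [e]
    exact key _ (by rw [abs_lt]; constructor <;> linarith)
  · right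
    refine ⟨1 / 2, by norm_num, ?_⟩
    have e : ((p, -1) : V3) + (1 / 2 : ℝ) • ((-x, 1) : V3) = ((s - 1 / 2) • x, -(1 / 2)) := by
      rw [hs]
      ext
      · simp; ring
      · simp; ring
      · simp; norm_num
    rw [e]
    exact key _ (by rw [abs_lt]; constructor <;> linarith)

/-- the rotated vector -/
def rot (n : V2) : V2 := (-n.2, n.1)

theorem claim1' {K : Set V3} (hK : HB K) (hP : S_P) (hf : S_fib) {A n : V2} (hn : n ≠ 0)
    (hAI : A ∈ IP K) (hAK : ((A, -1) : V3) ∈ K)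
    (hsup : ∀ p : V2, ((p, -1) : V3) ∈ K → n.1 * p.1 + n.2 * p.2 ≤ n.1 * A.1 + n.2 * A.2)
    (hpos : 0 < n.1 * A.1 + n.2 * A.2)
    (hint : ∀ s : ℝ, |s| < 1 → s • A ∈ interior {p : V2 | ((p, -1) : V3) ∈ K})
    {p : V2} (hp : ((p, -1) : V3) ∈ K) (hpA : p ≠ A) (hpA' : p ≠ -A) :
    ∃ v : V2, (v = rot n ∨ v = - rot n) ∧ ((v, 0) : V3) ∈ T K (p, -1) ∧
      ∃ k : ℝ, 0 < k ∧ ((v, k) : V3) ∈ C K (p, -1) := by
  obtain ⟨s, hs⟩ : ∃ s, s = (n.1 * p.1 + n.2 * p.2) / (n.1 * A.1 + n.2 * A.2) := ⟨_, rfl⟩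
  have hsh : s * (n.1 * A.1 + n.2 * A.2) = n.1 * p.1 + n.2 * p.2 := by
    rw [hs, div_mul_cancel₀ _ hpos.ne']
  have h1 := hsup p hp
  have h2 := hsup (-p) (hK.symm p _ hp)
  simp only [Prod.fst_neg, Prod.snd_neg] at h2
  have hs1 : |s| ≤ 1 := by
    rw [hs, abs_div, abs_of_pos hpos, div_le_one hpos, abs_le]
    constructor <;> linarith
  have hqI : s • A ∈ IP K := by
    rcases lt_or_eq_of_le hs1 with h | h
    · exact sIP hK hP ⟨_, hAK, rfl⟩ h
    · rcases eq_or_eq_neg_of_abs_eq h with h | h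
      · rw [h, one_smul]
        exact hAI
      · rw [h, neg_smul, one_smul]
        exact (hP K hK).2.2.2.2.1 A hAI
  have hqK : ((s • A, -1) : V3) ∈ K := seg hK hAK hs1
  have hn2 : 0 < n.1 ^ 2 + n.2 ^ 2 := by
    by_contra hcon
    push Not at hcon
    apply hn
    have a1 : n.1 ^ 2 = 0 := le_antisymm (by nlinarith [sq_nonneg n.2]) (sq_nonneg _)
    have a2 : n.2 ^ 2 = 0 := le_antisymm (by nlinarith [sq_nonneg n.1]) (sq_nonneg _)
    exact Prod.ext (pow_eq_zero_iff two_ne_zero |>.1 a1) (pow_eq_zero_iff two_ne_zero |>.1 a2)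
  obtain ⟨t, ht⟩ : ∃ t : ℝ, p = s • A + t • rot n := by
    refine ⟨(-(p.1 - s * A.1) * n.2 + (p.2 - s * A.2) * n.1) / (n.1 ^ 2 + n.2 ^ 2), ?_⟩
    unfold rot
    ext
    · simp only [Prod.fst_add, Prod.smul_fst, smul_eq_mul]
      field_simp
      linear_combination (-n.1) * hsh
    · simp only [Prod.snd_add, Prod.smul_snd, smul_eq_mul]
      field_simp
      linear_combination (-n.2) * hsh
  rcases lt_trichotomy t 0 with h | h | h
  · refine ⟨rot n, Or.inl rfl, ?_⟩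
    refine claim1 hK hf (t := -t) (by linarith) hqI hqK ?_
    rw [ht, neg_smul, add_neg_cancel_right]
  · subst h
    rw [zero_smul, add_zero] at ht
    have hs2 : |s| < 1 := by
      rcases lt_or_eq_of_le hs1 with h | h
      · exact h
      · exfalso
        rcases eq_or_eq_neg_of_abs_eq h with h | h
        · rw [h, one_smul] at ht
          exact hpA ht
        · rw [h, neg_smul, one_smul] at ht
          exact hpA' ht
    have h3 := hint s hs2
    rw [← ht] at h3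
    have hc : Continuous fun t : ℝ => p + t • rot n := by fun_prop
    have ho : IsOpen ((fun t : ℝ => p + t • rot n) ⁻¹' interior {p : V2 | ((p, -1) : V3) ∈ K}) :=
      isOpen_interior.preimage hc
    have h0 : (0 : ℝ) ∈ (fun t : ℝ => p + t • rot n) ⁻¹'
        interior {p : V2 | ((p, -1) : V3) ∈ K} := by
      show p + (0 : ℝ) • rot n ∈ interior {p : V2 | ((p, -1) : V3) ∈ K}
      rw [zero_smul, add_zero]
      exact h3
    obtain ⟨ε, hε, hb⟩ := Metric.isOpen_iff.1 ho 0 h0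
    have h1 : (ε / 2 : ℝ) ∈ Metric.ball (0 : ℝ) ε := by
      rw [Metric.mem_ball, Real.dist_eq, sub_zero, abs_of_pos (by linarith)]
      linarith
    have h2 : p + (ε / 2) • rot n ∈ interior {p : V2 | ((p, -1) : V3) ∈ K} := hb h1
    have h2K : ((p + (ε / 2) • rot n, -1) : V3) ∈ K := by
      have h4 : p + (ε / 2) • rot n ∈ {p : V2 | ((p, -1) : V3) ∈ K} := interior_subset h2
      exact h4
    refine ⟨rot n, Or.inl rfl, ?_⟩
    refine claim1 hK hf (t := ε / 2) (q := p + (ε / 2) • rot n) (by linarith) ?_ h2K rfl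
    refine interior_mono ?_ h2
    intro y hy
    exact ⟨_, hy, rfl⟩
  · refine ⟨-rot n, Or.inr rfl, ?_⟩
    refine claim1 hK hf (t := t) h hqI hqK ?_
    rw [ht, smul_neg, add_neg_cancel_right]

/-- lighting of a point of the bottom face by one of two directions -/
def G (K : Set V3) (u p : V2) (k : ℝ) : Prop :=
  ((u, k) : V3) ∈ C K (p, -1) ∨ ((-u, k) : V3) ∈ C K (p, -1)

theorem scale {K : Set V3} (hK : HB K) (htc : S_TC) {p v : V2} {k k' : ℝ}
    (hp : ((p, -1) : V3) ∈ K) (hv : ((v, 0) : V3) ∈ T K (p, -1)) (hk' : 0 < k') (hkk : k' ≤ k)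
    (h : ((v, k) : V3) ∈ C K (p, -1) ∨ ((-v, k) : V3) ∈ C K (p, -1)) :
    ((v, k') : V3) ∈ C K (p, -1) := by
  have hk : 0 < k := lt_of_lt_of_le hk' hkk
  obtain ⟨-, hT, hC, -, hTC, -, -⟩ := htc K hK _ hp
  have hdiv : k' / k * k = k' := div_mul_cancel₀ _ hk.ne'
  rcases h with h | h
  · have h1 := hT _ hv (1 - k' / k) (by
      have : k' / k ≤ 1 := (div_le_one hk).2 hkk
      linarith)
    have h2 := hC _ h (k' / k) (div_pos hk' hk)
    have h3 := hTC _ h1 _ h2
    have e : (1 - k' / k) • ((v, 0) : V3) + (k' / k) • ((v, k) : V3) = (v, k') := by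
      ext
      · simp; ring
      · simp; ring
      · simp [hdiv]
    rwa [e] at h3
  · have h1 := hTC _ hv _ h
    have h2 := hC _ h1 (k' / k) (div_pos hk' hk)
    have h3 := hTC _ hv _ h2
    have e : ((v, 0) : V3) + (k' / k) • (((v, 0) : V3) + ((-v, k) : V3)) = (v, k') := by
      ext
      · simp
      · simp
      · simp [hdiv]
    rwa [e] at h3

theorem caseB {K : Set V3} (hK : HB K) (hP : S_P) (hf : S_fib) (htc : S_TC) (hsym : S_sym)
    (hcop : S_Cop) (htan : S_tan) {A n : V2} (hn : n ≠ 0)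
    (hAI : A ∈ IP K) (hAK : ((A, -1) : V3) ∈ K)
    (hdisc : ∀ e : V2, e.1 ^ 2 + e.2 ^ 2 < n.1 ^ 2 + n.2 ^ 2 → ((A - n + e, -1) : V3) ∈ K)
    (hsup : ∀ p : V2, ((p, -1) : V3) ∈ K → n.1 * p.1 + n.2 * p.2 ≤ n.1 * A.1 + n.2 * A.2)
    (hpos : 0 < n.1 * A.1 + n.2 * A.2)
    (hint : ∀ s : ℝ, |s| < 1 → s • A ∈ interior {p : V2 | ((p, -1) : V3) ∈ K}) :
    ∃ κ : ℝ, ∀ p : V2, ((p, -1) : V3) ∈ K → G K (rot n) p κ := by
  have hA : ∀ k : ℝ, 0 < k → G K (rot n) A k := fun k hk =>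
    Or.inl (htan K hK A n hn hAI hAK hdisc k hk)
  have hA' : ∀ k : ℝ, 0 < k → G K (rot n) (-A) k := fun k hk =>
    Or.inr (hsym K hK A (rot n) (-1) k (htan K hK A n hn hAI hAK hdisc k hk))
  have hex : ∀ p : V2, ((p, -1) : V3) ∈ K → ∃ k : ℝ, 0 < k ∧ G K (rot n) p k := by
    intro p hp
    by_cases h1 : p = A
    · rw [h1]
      exact ⟨1, one_pos, hA 1 one_pos⟩
    by_cases h2 : p = -A
    · rw [h2]
      exact ⟨1, one_pos, hA' 1 one_pos⟩
    obtain ⟨v, hv, -, k, hk, hC⟩ := claim1' hK hP hf hn hAI hAK hsup hpos hint hp h1 h2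
    refine ⟨k, hk, ?_⟩
    rcases hv with rfl | rfl
    · exact Or.inl hC
    · exact Or.inr hC
  have hmono : ∀ p : V2, ((p, -1) : V3) ∈ K → ∀ k k' : ℝ, 0 < k' → k' ≤ k →
      G K (rot n) p k → G K (rot n) p k' := by
    intro p hp k k' hk' hkk hG
    by_cases h1 : p = A
    · rw [h1]
      exact hA k' hk'
    by_cases h2 : p = -A
    · rw [h2]
      exact hA' k' hk'
    obtain ⟨v, hv, hT, -⟩ := claim1' hK hP hf hn hAI hAK hsup hpos hint hp h1 h2
    rcases hv with rfl | rfl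
    · exact Or.inl (scale hK htc hp hT hk' hkk hG)
    · refine Or.inr (scale hK htc hp hT hk' hkk ?_)
      rw [neg_neg]
      exact hG.symm
  have hopen : ∀ k : ℝ, IsOpen {p : V2 | G K (rot n) p k} := by
    intro k
    have h1 : ∀ w : V2, IsOpen {p : V2 | ((w, k) : V3) ∈ C K (p, -1)} := by
      intro w
      have hc : Continuous fun p : V2 => ((((p, -1) : V3), ((w, k) : V3)) : V3 × V3) := by
        fun_prop
      exact (hcop K).preimage hc
    exact (h1 _).union (h1 _)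
  have hcl : IsClosed {p : V2 | ((p, -1) : V3) ∈ K} := by
    have hc : Continuous fun p : V2 => ((p, -1) : V3) := by fun_prop
    exact hK.cpt.isClosed.preimage hc
  have hcpt : IsCompact {p : V2 | ((p, -1) : V3) ∈ K} :=
    (hP K hK).1.of_isClosed_subset hcl fun y hy => ⟨_, hy, rfl⟩
  have hfin : ∃ κ : ℝ, 0 < κ ∧ ∀ p ∈ {p : V2 | ((p, -1) : V3) ∈ K},
      ((p, -1) : V3) ∈ K → G K (rot n) p κ := by
    refine hcpt.induction_on (p := fun s => ∃ κ : ℝ, 0 < κ ∧ ∀ p ∈ s,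
      ((p, -1) : V3) ∈ K → G K (rot n) p κ) ?_ ?_ ?_ ?_
    · exact ⟨1, one_pos, fun p hp => absurd hp (Set.notMem_empty p)⟩
    · rintro s t hst ⟨κ, hκ, h⟩
      exact ⟨κ, hκ, fun p hp => h p (hst hp)⟩
    · rintro s t ⟨κ, hκ, h⟩ ⟨κ', hκ', h'⟩
      refine ⟨min κ κ', lt_min hκ hκ', ?_⟩
      rintro p (hp | hp) hpK
      · exact hmono p hpK κ _ (lt_min hκ hκ') (min_le_left _ _) (h p hp hpK)
      · exact hmono p hpK κ' _ (lt_min hκ hκ') (min_le_right _ _) (h' p hp hpK)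
    · intro p hp
      obtain ⟨k, hk, hG⟩ := hex p hp
      exact ⟨{p : V2 | G K (rot n) p k}, mem_nhdsWithin_of_mem_nhds ((hopen k).mem_nhds hG), k, hk,
        fun q hq _ => hq⟩
  obtain ⟨κ, -, h⟩ := hfin
  exact ⟨κ, fun p hp => h p hp hp⟩

theorem ulem (hP : S_P) (hf : S_fib) (hik : S_IntK) (htc : S_TC) (hsym : S_sym) (hcop : S_Cop)
    (hball : S_ball) (htan : S_tan) : S_ulem := by
  intro K hK x m hx hxI hm hmK
  by_cases hline : ∀ y : V2, ((y, -1) : V3) ∈ K → det x y = 0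
  · exact ⟨x, 1, caseA hK hP hik hx hxI hline⟩
  · push Not at hline
    obtain ⟨y, hy, hd⟩ := hline
    obtain ⟨A, n, hn, hAI, hAK, hdisc, hsup, hpos, hint⟩ := hball K hK x y m hx.2 hy hd hm hmK
    obtain ⟨κ, h⟩ := caseB hK hP hf htc hsym hcop htan hn hAI hAK hdisc hsup hpos hint
    exact ⟨rot n, κ, h⟩

end Pool.Agent.H94.HT
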